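import Pool.Agent.Lib.Helper31.P80.Unique
import Pool.Agent.Lib.Helper31.P80.LowDeg
import Pool.Agent.Lib.Helper31.P80.Planar

/-!
# MP_80a817_lc: planar graphs without an independent set of size `⌊n / 4⌋ + 1`

The No instances of the decision problem are decomposed along cuts of order at most three and along
separating 4-cycles. In each case at most one of a bounded number of smaller instances on one side
is a No instance, so that the decomposition can be followed in polynomial time.
-/

namespace Pool.Agent.Results.MP_80a817_lc.SmallCuts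

open SimpleGraph Classical Pool.Agent.Lib.Helper31.P80

/-- Let `C` be a class of finite graphs which is closed under minors and star-triangle exchanges and
whose members are 4-colourable; by the first statement and the four colour theorem the planar graphs
form such a class.  `No G A`: the induced subgraph on `A` has no independent set of size
`⌊|A| / 4⌋ + 1`.  Let `G` be in `C`.

(1) `No G A` if and only if `A` has a partition into sets each of which induces a `K₄` or a
4-connected graph with `No`.

(2) If `T` has at most three vertices and separates `U₁` from `U₂`, then `No G (U₁ ∪ T ∪ U₂)` if and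
only if `No G (U₁ ∪ B)` and `No G (U₂ ∪ (T \ B))` for some `B ⊆ T`; if all of `T` is attached to a
connected subset of `U₂`, then at most one `B ⊆ T` has `No G (U₁ ∪ B)`.

(3) If `v` has at most three neighbours in `A`, then `No G A` if and only if `v` and its neighbours
in `A` induce a `K₄` and the rest of `A` has `No`.

(4) If the induced 4-cycle `a b c d` separates the connected sets `U₁` and `U₂`, both attached to
all four vertices, then `No G (U₁ ∪ {a, b, c, d} ∪ U₂)` if and only if `U₁` has one of 20 properties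
and `U₂` the partner property: `No` for the side with a part `B` of the cycle, or `No` for the side
with the whole cycle and one of four cliques with at most three new vertices. At most one of the 20
properties holds for `U₁`. -/
theorem result :
    ((∀ (V : Type) (G : SimpleGraph V), Planar V G → G.Colorable 4) → FourColourClass Planar) ∧
    ∀ C : ∀ V : Type, SimpleGraph V → Prop, FourColourClass C →
    ∀ (V : Type) [Finite V] (G : SimpleGraph V), C V G →
      (∀ A : Finset V, No G A ↔ ∃ P : Finpartition A, ∀ X ∈ P.parts,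
        IsK4 G X ∨ (FourConnected G X ∧ No G X)) ∧
      (∀ U₁ T U₂ : Finset V, Disjoint U₁ T → Disjoint U₂ T → Disjoint U₁ U₂ →
        (∀ x ∈ U₁, ∀ y ∈ U₂, ¬ G.Adj x y) → T.card ≤ 3 →
        (No G (U₁ ∪ T ∪ U₂) ↔ ∃ B ⊆ T, No G (U₁ ∪ B) ∧ No G (U₂ ∪ (T \ B))) ∧
        ((∃ D ⊆ U₂, (G.induce (D : Set V)).Connected ∧ ∀ t ∈ T, ∃ e ∈ D, G.Adj t e) →
          ∀ B ⊆ T, ∀ B' ⊆ T, No G (U₁ ∪ B) → No G (U₁ ∪ B') → B = B')) ∧
      (∀ (A : Finset V) (v : V), v ∈ A → (A.filter (fun u => G.Adj v u)).card ≤ 3 →
        (No G A ↔ IsK4 G (insert v (A.filter (fun u => G.Adj v u))) ∧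
          No G (A \ insert v (A.filter (fun u => G.Adj v u))))) ∧
      (∀ (a b c d : V) (U₁ U₂ : Finset V), G.Adj a b → G.Adj b c → G.Adj c d → G.Adj d a →
        a ≠ c → b ≠ d → ¬ G.Adj a c → ¬ G.Adj b d →
        Disjoint U₁ {a, b, c, d} → Disjoint U₂ {a, b, c, d} → Disjoint U₁ U₂ →
        (∀ x ∈ U₁, ∀ y ∈ U₂, ¬ G.Adj x y) →
        (G.induce (U₁ : Set V)).Connected → (G.induce (U₂ : Set V)).Connected →
        (∀ t ∈ ({a, b, c, d} : Finset V), ∃ e ∈ U₁, G.Adj t e) →
        (∀ t ∈ ({a, b, c, d} : Finset V), ∃ e ∈ U₂, G.Adj t e) →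
        (No G (U₁ ∪ {a, b, c, d} ∪ U₂) ↔
          ∃ o, Side G a b c d U₁ o ∧ Side G a b c d U₂ (partner {a, b, c, d} o)) ∧
        ∀ o o', Side G a b c d U₁ o → Side G a b c d U₁ o' → o = o') := by
  refine ⟨planar_class, ?_⟩
  intro C hC V _ G hG
  refine ⟨fun A => ?_, ?_, ?_, ?_⟩
  · simp only [no_iff]
    exact noLarge_iff hC hG A
  · intro U₁ T U₂ h1 h2 h3 h4 h5
    simp only [no_iff]
    refine ⟨separation_iff hC hG h1 h2 h3 h4 h5, ?_⟩
    rintro ⟨D, hD, hc, hatt⟩ B hB B' hB' hN hN'
    exact cut_unique hC hG h1 (Finset.disjoint_of_subset_right hD h3)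
      (Finset.disjoint_of_subset_right hD h2.symm) h5 hc hatt hB hB' hN hN'
  · intro A v hv hdeg
    simp only [no_iff]
    exact low_degree_iff hC hG hv hdeg
  · intro a b c d U₁ U₂ hab hbc hcd hda hac hbd hnac hnbd h1 h2 h3 h4 h5 h6 h7 h8
    refine ⟨four_side_iff hC hG hab hbc hcd hda hac hbd hnac hnbd h1 h2 h3 h4 h5 h6 h7 h8, ?_⟩
    intro o o' ho ho'
    exact four_unique hC hG hab hbc hcd hda hac hbd hnac hnbd h1 h3 h2.symm h6 h8 ho ho'

end Pool.Agent.Results.MP_80a817_lc.SmallCuts
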